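import Pool.Agent.TH474.RS.Final

/-!
# `MP_e8016c_co`: an almost quadratic lower bound for `g(k)`

If `g ≤ k^2 / (10^13 (log₂ k)^20)` and `k ≥ 2^160`, then `K_k` and `K_k + K_{1,g}` are
Ramsey-equivalent.
-/

open SimpleGraph

namespace Pool.Agent.Results.MP_e8016c_co.AlmostQuadraticLower

/-- `G → H`: for every red/blue colouring of the edges of `G`, with red graph `R` and blue graph
`G \ R`, the red graph or the blue graph contains a copy of `H`. -/
def Arrows {V W : Type} (G : SimpleGraph V) (H : SimpleGraph W) : Prop :=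
  ∀ R : SimpleGraph V, R ≤ G → H.IsContained R ∨ H.IsContained (G \ R)

/-- `H₁` and `H₂` are Ramsey-equivalent: they are arrowed by the same finite graphs. -/
def RamseyEquiv {W₁ W₂ : Type} (H₁ : SimpleGraph W₁) (H₂ : SimpleGraph W₂) : Prop :=
  ∀ (V : Type) [Finite V] (G : SimpleGraph V), Arrows G H₁ ↔ Arrows G H₂

/-- `K_k + K_{1,g}`: the disjoint union of a complete graph and a star. -/
def cliqueAddStar (k g : ℕ) : SimpleGraph (Fin k ⊕ (Fin 1 ⊕ Fin g)) :=
  (⊤ : SimpleGraph (Fin k)) ⊕g completeBipartiteGraph (Fin 1) (Fin g)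

lemma clique_sub (k g : ℕ) : (⊤ : SimpleGraph (Fin k)).IsContained (cliqueAddStar k g) :=
  ⟨(SimpleGraph.Embedding.sumInl).toCopy⟩

open Pool.Agent.TH474.RS in
lemma contained_of_hasCS {V : Type} [Fintype V] {R : SimpleGraph V} {k g : ℕ}
    (h : Red.HasCS R k g) : (cliqueAddStar k g).IsContained R := by
  obtain ⟨s, v, N, hs, hv, hN, hadj⟩ := h
  have e1 : Fin k ≃ s := (s.equivFinOfCardEq hs.2).symm
  have e2 : Fin g ≃ N := (N.equivFinOfCardEq hN).symm
  refine ⟨⟨⟨Sum.elim (fun i => (e1 i : V)) (Sum.elim (fun _ => v) (fun j => (e2 j : V))), ?_⟩, ?_⟩⟩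
  · rintro (i | (i | i)) (j | (j | j)) hij
    · have hne : i ≠ j := by
        simpa [cliqueAddStar] using hij
      refine hs.1 (Finset.mem_coe.mpr (e1 i).2) (Finset.mem_coe.mpr (e1 j).2) ?_
      intro he
      exact hne (e1.injective (Subtype.ext he))
    · simp [cliqueAddStar] at hij
    · simp [cliqueAddStar] at hij
    · simp [cliqueAddStar] at hij
    · simp [cliqueAddStar] at hij
    · exact (hadj (e2 j) (e2 j).2).2
    · simp [cliqueAddStar] at hij
    · exact (hadj (e2 i) (e2 i).2).2.symm
    · simp [cliqueAddStar] at hij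
  · rintro (i | (i | i)) (j | (j | j)) hij
    · exact congrArg Sum.inl (e1.injective (Subtype.ext hij))
    · exact absurd (show (v : V) ∈ s by
        have : (e1 i : V) = v := hij
        rw [← this]; exact (e1 i).2) hv
    · exfalso
      have h1 : (e1 i : V) = (e2 j : V) := hij
      have h2 := (e1 i).2
      rw [h1] at h2
      exact (hadj _ (e2 j).2).1 h2
    · exact absurd (show (v : V) ∈ s by
        have : v = (e1 j : V) := hij
        rw [this]; exact (e1 j).2) hv
    · rw [Subsingleton.elim i j]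
    · exfalso
      have h1 : v = (e2 j : V) := hij
      have h2 := (hadj _ (e2 j).2).2
      rw [← h1] at h2
      exact h2.ne rfl
    · exfalso
      have h1 : (e2 i : V) = (e1 j : V) := hij
      have h2 := (e1 j).2
      rw [← h1] at h2
      exact (hadj _ (e2 i).2).1 h2
    · exfalso
      have h1 : (e2 i : V) = v := hij
      have h2 := (hadj _ (e2 i).2).2
      rw [h1] at h2
      exact h2.ne rfl
    · exact congrArg (fun x => Sum.inr (Sum.inr x)) (e2.injective (Subtype.ext hij))

theorem result : ∀ k g : ℕ, 2 ^ 160 ≤ k → 10 ^ 13 * g * (Nat.clog 2 k) ^ 20 ≤ k ^ 2 →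
    RamseyEquiv (⊤ : SimpleGraph (Fin k)) (cliqueAddStar k g) := by
  intro k g hk hg V hV G
  have _ : Fintype V := Fintype.ofFinite V
  constructor
  · intro h R hR
    obtain ⟨b, N, h1, h2, h3, h4, h5, h6⟩ := Pool.Agent.TH474.RS.Fin.params k g hk hg
    have h7 : 3 ≤ k := le_trans (by norm_num) hk
    have h8 := Pool.Agent.TH474.RS.Red.reduce G h7 h6
      (fun D B hD hB => Pool.Agent.TH474.RS.Par.coreK k b N g h1 h2 h3 h4 h5 D B hD hB)
      (by
        intro R' hR' hcf
        rcases h R' hR' with h9 | h9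
        · exact h9.not_cliqueFree hcf.1
        · exact h9.not_cliqueFree hcf.2) R hR
    rcases h8 with h8 | h8
    · exact Or.inl (contained_of_hasCS h8)
    · exact Or.inr (contained_of_hasCS h8)
  · intro h R hR
    rcases h R hR with h1 | h1
    · exact Or.inl ((clique_sub k g).trans h1)
    · exact Or.inr ((clique_sub k g).trans h1)

end Pool.Agent.Results.MP_e8016c_co.AlmostQuadraticLower
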